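import Mathlib

set_option autoImplicit false

universe u

namespace Pool.Agent.Results.MP_453038_al.LowerTwoUpperAny

open Cardinal

/-- The product `AB` is direct: each element of `AB` has exactly one representation `ab` with
`a ∈ A` and `b ∈ B`. -/
def IsDirect {G : Type u} [Group G] (A B : Set G) : Prop :=
  ∀ a ∈ A, ∀ b ∈ B, ∀ a' ∈ A, ∀ b' ∈ B, a * b = a' * b' → a = a' ∧ b = b'

/-- `B` is a right subfactor of `G` related to `A`: it is maximal under inclusion among the
subsets `B` of `G` for which `AB` is direct. -/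
def IsRightSubfactor {G : Type u} [Group G] (A B : Set G) : Prop :=
  IsDirect A B ∧ ∀ C : Set G, IsDirect A C → B ⊆ C → C = B

/-- The right upper subindex `|G:A|⁺`: the supremum of the cardinals of the right subfactors
related to `A`. -/
noncomputable def upperSubindex {G : Type u} [Group G] (A : Set G) : Cardinal.{u} :=
  ⨆ B : {B : Set G // IsRightSubfactor A B}, #(B.1 : Set G)

/-- The right lower subindex `|G:A|⁻`: the minimum of the cardinals of the right subfactors
related to `A`. -/
noncomputable def lowerSubindex {G : Type u} [Group G] (A : Set G) : Cardinal.{u} :=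
  sInf {c : Cardinal.{u} | ∃ B : Set G, IsRightSubfactor A B ∧ #(B : Set G) = c}

/-- Transfinite construction: a small symmetric set `S` not containing `1` is the complement
of a difference set `A⁻¹A`. -/
lemma exists_set {G : Type u} [Group G] (S : Set G) (hinf : ℵ₀ ≤ #G) (hS : #S < #G)
    (h1 : (1 : G) ∉ S) (hsymm : ∀ g ∈ S, g⁻¹ ∈ S) :
    ∃ A : Set G, (∀ g, g ∉ S → ∃ a ∈ A, ∃ a' ∈ A, a⁻¹ * a' = g) ∧
      (∀ a ∈ A, ∀ a' ∈ A, a⁻¹ * a' ∉ S) := by
  classical
  have ho : #((#G).ord.ToType) = #G := by simp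
  obtain ⟨e⟩ : Nonempty ((#G).ord.ToType ≃ G) := Cardinal.eq.mp ho
  set o := (#G).ord.ToType with ho_def
  let g : o → G := fun i => if e i ∈ S then 1 else e i
  have hg : ∀ i, g i ∉ S := by
    intro i
    by_cases h : e i ∈ S
    · simpa only [g, h, if_true] using h1
    · simpa only [g, if_neg h] using h
  let c : o → Bool → G := fun i b => if b then g i else 1
  let F : (i : o) → ((j : o) → j < i → G) → (Set.Iio i × S × Bool × Bool) → G :=
    fun i f p => f p.1.1 p.1.2 * c p.1.1 p.2.2.1 * p.2.1.1 * (c i p.2.2.2)⁻¹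
  have hbad : ∀ i f, ∃ y, y ∉ Set.range (F i f) := by
    intro i f
    by_contra hcon
    push Not at hcon
    have hsurj : Function.Surjective (F i f) := fun y => hcon y
    have hle := Cardinal.mk_le_of_surjective hsurj
    have hlt : #(Set.Iio i × S × Bool × Bool) < #G := by
      simp only [Cardinal.mk_prod, Cardinal.lift_id, Cardinal.lift_uzero]
      apply Cardinal.mul_lt_of_lt hinf
      · have h3 := Cardinal.mk_Iio_lt i (by rw [ho]; exact (Ordinal.type_toType _).symm)
        rwa [ho] at h3
      · apply Cardinal.mul_lt_of_lt hinf hS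
        refine lt_of_lt_of_le ?_ hinf
        exact Cardinal.lift_lt_aleph0.mpr (Cardinal.mk_lt_aleph0)
    exact absurd hle (not_le.mpr hlt)
  let x : o → G := wellFounded_lt.fix (fun i ih => Classical.choose (hbad i ih))
  have hx : ∀ i, x i ∉ Set.range (F i (fun j _ => x j)) := by
    intro i
    have h2 : x i = Classical.choose (hbad i (fun j _ => x j)) :=
      WellFounded.fix_eq _ _ i
    rw [h2]
    exact Classical.choose_spec (hbad i (fun j _ => x j))
  have key : ∀ i j : o, j < i → ∀ b b' : Bool, (x j * c j b)⁻¹ * (x i * c i b') ∉ S := by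
    intro i j hji b b' hmem
    apply hx i
    refine ⟨(⟨j, hji⟩, ⟨_, hmem⟩, b, b'), ?_⟩
    simp only [F]
    group
  refine ⟨{y | ∃ i b, y = x i * c i b}, ?_, ?_⟩
  · intro h hh
    refine ⟨x (e.symm h) * c (e.symm h) false, ⟨_, _, rfl⟩,
      x (e.symm h) * c (e.symm h) true, ⟨_, _, rfl⟩, ?_⟩
    simp [c, g, hh]
  · rintro _ ⟨i, b, rfl⟩ _ ⟨j, b', rfl⟩ hmem
    rcases lt_trichotomy i j with hij | hij | hij
    · exact key j i hij b b' hmem
    · subst hij
      have h3 : (x i * c i b)⁻¹ * (x i * c i b') = (c i b)⁻¹ * c i b' := by group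
      rw [h3] at hmem
      cases b <;> cases b' <;> simp [c] at hmem
      · exact h1 hmem
      · exact hg i hmem
      · exact hg i (by simpa using hsymm _ hmem)
      · exact h1 hmem
    · apply key i j hij b' b
      have := hsymm _ hmem
      simpa [mul_assoc] using this

/-- A set `B` whose quotients `b b'⁻¹` of distinct elements lie in `S`. -/
def Clique {G : Type u} [Group G] (S B : Set G) : Prop :=
  ∀ b ∈ B, ∀ b' ∈ B, b ≠ b' → b * b'⁻¹ ∈ S

lemma direct_iff_clique {G : Type u} [Group G] {S A : Set G}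
    (hA : ∀ g, g ∉ S → ∃ a ∈ A, ∃ a' ∈ A, a⁻¹ * a' = g)
    (hA' : ∀ a ∈ A, ∀ a' ∈ A, a⁻¹ * a' ∉ S) (B : Set G) :
    IsDirect A B ↔ Clique S B := by
  constructor
  · intro h b hb b' hb' hne
    by_contra hcon
    obtain ⟨a, ha, a', ha', haa⟩ := hA _ hcon
    have : a' * b' = a * b := by
      have h2 : a' = a * (b * b'⁻¹) := by rw [← haa]; group
      rw [h2]; group
    exact hne (h a' ha' b' hb' a ha b hb this).2.symm
  · intro h a ha b hb a' ha' b' hb' hab
    by_cases hne : b = b'
    · subst hne
      exact ⟨mul_right_cancel hab, rfl⟩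
    · exfalso
      have h1 := h b hb b' hb' hne
      have h2 : a⁻¹ * a' = b * b'⁻¹ := by
        have h3 : a' = a * b * b'⁻¹ := by rw [hab]; group
        rw [h3]; group
      exact hA' a ha a' ha' (h2 ▸ h1)

/-- Every clique extends to a maximal one. -/
lemma exists_maximal_clique {G : Type u} [Group G] (S B : Set G) (hB : Clique S B) :
    ∃ C, B ⊆ C ∧ Clique S C ∧ ∀ D, Clique S D → C ⊆ D → D = C := by
  obtain ⟨M, hBM, hM⟩ := zorn_subset_nonempty {C | Clique S C} (by
    intro c hc hchain hne
    refine ⟨⋃₀ c, ?_, fun s hs => Set.subset_sUnion_of_mem hs⟩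
    rintro b ⟨C, hC, hbC⟩ b' ⟨C', hC', hbC'⟩ hne'
    rcases hchain.total hC hC' with h | h
    · exact hc hC' b (h hbC) b' hbC' hne'
    · exact hc hC b hbC b' (h hbC') hne') B hB
  exact ⟨M, hBM, hM.prop, fun D hD hMD => (hM.eq_of_subset hD hMD).symm⟩

lemma two_le_of_maximal {G : Type u} [Group G] {S : Set G} {s : G} (hs : s ∈ S)
    (hs1 : s ≠ 1) (hsi : s⁻¹ ∈ S) {B : Set G} (hB : Clique S B)
    (hmax : ∀ D, Clique S D → B ⊆ D → D = B) : 2 ≤ #(B : Set G) := by
  have hne : B.Nonempty := by
    by_contra hcon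
    rw [Set.not_nonempty_iff_eq_empty] at hcon
    subst hcon
    have h1 : Clique S ({1} : Set G) := by
      intro b hb b' hb' hne
      rw [Set.mem_singleton_iff] at hb hb'
      exact absurd (hb.trans hb'.symm) hne
    have h2 := hmax {1} h1 (Set.empty_subset _)
    exact absurd h2 (Set.singleton_ne_empty _)
  obtain ⟨b, hb⟩ := hne
  rw [Cardinal.two_le_iff]
  by_contra hcon
  push Not at hcon
  have hall : ∀ x ∈ B, x = b := by
    intro x hx
    have := hcon ⟨x, hx⟩ ⟨b, hb⟩
    exact congrArg Subtype.val this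
  have h1 : Clique S ({b, s * b} : Set G) := by
    intro x hx y hy hxy
    rcases hx with rfl | rfl <;> rcases hy with rfl | rfl
    · exact absurd rfl hxy
    · have : x * (s * x)⁻¹ = s⁻¹ := by group
      rw [this]; exact hsi
    · have : s * y * y⁻¹ = s := by group
      rw [this]; exact hs
    · exact absurd rfl hxy
  have h2 := hmax _ h1 (by intro x hx; rw [hall x hx]; exact Set.mem_insert _ _)
  have h3 : s * b ∈ B := by rw [← h2]; exact Set.mem_insert_of_mem _ rfl
  have h4 := hall _ h3
  exact hs1 (by simpa using h4)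

/-- The general construction: a family `b` of distinct elements and an involution `s`,
suitably independent of it, inside a bigger group. -/
lemma main_construction {G : Type u} [Group G] {I : Type u} (b : I → G) (s : G)
    (hI : ℵ₀ ≤ #I) (hlt : #I < #G) (hb : Function.Injective b) (hs : s ≠ 1) (hss : s * s = 1)
    (hbs : ∀ i j k l, b i * (b j)⁻¹ * s⁻¹ ≠ b k * (b l)⁻¹) :
    ∃ A : Set G, lowerSubindex A = 2 ∧ upperSubindex A = #I := by
  classical
  have hsinv : s⁻¹ = s := inv_eq_of_mul_eq_one_left hss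
  let S : Set G := insert s (Set.range (fun p : {p : I × I // p.1 ≠ p.2} =>
    b p.1.1 * (b p.1.2)⁻¹))
  have hSs : s ∈ S := Set.mem_insert _ _
  have hSmem : ∀ g, g ∈ S ↔ g = s ∨ ∃ i j, i ≠ j ∧ g = b i * (b j)⁻¹ := by
    intro g
    constructor
    · rintro (h | ⟨⟨⟨i, j⟩, hij⟩, rfl⟩)
      · exact Or.inl h
      · exact Or.inr ⟨i, j, hij, rfl⟩
    · rintro (h | ⟨i, j, hij, rfl⟩)
      · exact Or.inl h
      · exact Or.inr ⟨⟨⟨i, j⟩, hij⟩, rfl⟩
  have h1 : (1 : G) ∉ S := by
    intro h
    rcases (hSmem _).mp h with h | ⟨i, j, hij, h⟩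
    · exact hs h.symm
    · exact hij (hb (mul_inv_eq_one.mp h.symm))
  have hsymm : ∀ g ∈ S, g⁻¹ ∈ S := by
    intro g hg
    rcases (hSmem _).mp hg with rfl | ⟨i, j, hij, rfl⟩
    · rw [hsinv]; exact hSs
    · exact (hSmem _).mpr (Or.inr ⟨j, i, hij.symm, by group⟩)
  have hcard : #S ≤ #I := by
    calc #S ≤ #(Set.range (fun p : {p : I × I // p.1 ≠ p.2} =>
            b p.1.1 * (b p.1.2)⁻¹)) + 1 := Cardinal.mk_insert_le
      _ ≤ #{p : I × I // p.1 ≠ p.2} + 1 := by gcongr; exact Cardinal.mk_range_le
      _ ≤ #(I × I) + 1 := by gcongr; exact Cardinal.mk_subtype_le _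
      _ = #I + 1 := by
        rw [Cardinal.mk_prod, Cardinal.lift_id, Cardinal.mul_eq_self hI]
      _ = #I := Cardinal.add_one_eq hI
  have hinf : ℵ₀ ≤ #G := hI.trans hlt.le
  obtain ⟨A, hA, hA'⟩ := exists_set S hinf (hcard.trans_lt hlt) h1 hsymm
  have hsub : ∀ B : Set G, IsRightSubfactor A B ↔
      (Clique S B ∧ ∀ D, Clique S D → B ⊆ D → D = B) := by
    intro B
    unfold IsRightSubfactor
    simp only [direct_iff_clique hA hA']
  refine ⟨A, ?_, ?_⟩
  · -- the lower subindex
    have hmem : (2 : Cardinal.{u}) ∈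
        {c : Cardinal.{u} | ∃ B : Set G, IsRightSubfactor A B ∧ #(B : Set G) = c} := by
      refine ⟨{1, s}, (hsub _).mpr ⟨?_, ?_⟩, ?_⟩
      · intro x hx y hy hxy
        rcases hx with rfl | rfl <;> rcases hy with rfl | rfl
        · exact absurd rfl hxy
        · rw [one_mul, hsinv]; exact hSs
        · rw [inv_one, mul_one]; exact hSs
        · exact absurd rfl hxy
      · intro D hD hsubD
        refine Set.Subset.antisymm ?_ hsubD
        intro x hx
        by_contra hcon
        have hx1 : x ≠ 1 := fun h => hcon (by rw [h]; exact Set.mem_insert _ _)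
        have hxs : x ≠ s := fun h => hcon (by rw [h]; exact Set.mem_insert_of_mem _ rfl)
        have e1 : x ∈ S := by
          have := hD x hx 1 (hsubD (Set.mem_insert _ _)) hx1
          simpa using this
        have e2 : x * s⁻¹ ∈ S := hD x hx s (hsubD (Set.mem_insert_of_mem _ rfl)) hxs
        rcases (hSmem _).mp e1 with rfl | ⟨i, j, hij, rfl⟩
        · exact hxs rfl
        · rcases (hSmem _).mp e2 with h | ⟨k, l, hkl, h⟩
          · rw [hsinv] at h
            have h5 : b i * (b j)⁻¹ = 1 := by simpa using h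
            exact hx1 h5
          · exact hbs i j k l h
      · rw [Cardinal.mk_insert (by simpa using hs.symm), Cardinal.mk_singleton,
          one_add_one_eq_two]
    refine le_antisymm (csInf_le' hmem) (le_csInf ⟨2, hmem⟩ ?_)
    rintro c ⟨B, hB, rfl⟩
    obtain ⟨hB1, hB2⟩ := (hsub B).mp hB
    exact two_le_of_maximal hSs hs (by rw [hsinv]; exact hSs) hB1 hB2
  · -- the upper subindex
    apply le_antisymm
    · apply ciSup_le'
      rintro ⟨B, hB⟩
      obtain ⟨hB1, hB2⟩ := (hsub B).mp hB
      rcases B.eq_empty_or_nonempty with rfl | ⟨b0, hb0⟩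
      · simp
      · have hBsub : B ⊆ insert b0 ((fun g => g * b0) '' S) := by
          intro x hx
          by_cases hxb : x = b0
          · exact Or.inl hxb
          · exact Or.inr ⟨x * b0⁻¹, hB1 x hx b0 hb0 hxb, by group⟩
        calc #(B : Set G) ≤ #(insert b0 ((fun g => g * b0) '' S) : Set G) :=
              Cardinal.mk_le_mk_of_subset hBsub
          _ ≤ #((fun g => g * b0) '' S) + 1 := Cardinal.mk_insert_le
          _ ≤ #S + 1 := by gcongr; exact Cardinal.mk_image_le
          _ ≤ #I + 1 := by gcongr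
          _ = #I := Cardinal.add_one_eq hI
    · have hcl : Clique S (Set.range b) := by
        rintro _ ⟨i, rfl⟩ _ ⟨j, rfl⟩ hij
        exact (hSmem _).mpr (Or.inr ⟨i, j, fun h => hij (by rw [h]), rfl⟩)
      obtain ⟨C, hC1, hC2, hC3⟩ := exists_maximal_clique S _ hcl
      calc #I = #(Set.range b) := (Cardinal.mk_range_eq b hb).symm
        _ ≤ #(C : Set G) := Cardinal.mk_le_mk_of_subset hC1
        _ ≤ upperSubindex A :=
          le_ciSup (f := fun B : {B : Set G // IsRightSubfactor A B} => #(B.1 : Set G))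
            Cardinal.bddAbove_of_small ⟨C, (hsub C).mpr ⟨hC2, hC3⟩⟩

/-- The concrete group: an elementary abelian `2`-group of size `2 ^ #I`, times `K`. -/
abbrev Gp (I : Type u) (K : Type) : Type u := Multiplicative (Option I → ZMod 2) × K

lemma concrete (I : Type u) (hI : ℵ₀ ≤ #I) (K : Type) [Group K] :
    ∃ A : Set (Gp I K), lowerSubindex A = 2 ∧ upperSubindex A = #I := by
  classical
  let b : I → Gp I K := fun i => (Multiplicative.ofAdd (Pi.single (some i) 1), 1)
  let s : Gp I K := (Multiplicative.ofAdd (Pi.single none 1), 1)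
  have hI' : #(Option I) = #I := by
    rw [Cardinal.mk_option, Cardinal.add_one_eq hI]
  apply main_construction b s hI
  · calc #I < 2 ^ #I := Cardinal.cantor _
      _ = #(Option I → ZMod 2) := by
        have : #(ZMod 2) = 2 := by
          rw [Cardinal.mk_fintype, ZMod.card]; rfl
        rw [Cardinal.mk_pi, Cardinal.prod_const, this, hI']
        simp
      _ ≤ #(Gp I K) := by
        apply Cardinal.mk_le_of_injective
          (f := fun f : Option I → ZMod 2 => ((Multiplicative.ofAdd f, 1) : Gp I K))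
        intro f g hfg
        exact Multiplicative.ofAdd.injective (congrArg Prod.fst hfg)
  · intro i j hij
    have h2 : (Pi.single (some i) (1 : ZMod 2) : Option I → ZMod 2) = Pi.single (some j) 1 :=
      Multiplicative.ofAdd.injective (congrArg Prod.fst hij)
    by_contra hne
    have h3 := congrFun h2 (some i)
    rw [Pi.single_eq_same, Pi.single_eq_of_ne (by simpa using hne)] at h3
    exact one_ne_zero h3
  · intro h
    have h2 : (Pi.single none (1 : ZMod 2) : Option I → ZMod 2) = 0 :=
      Multiplicative.ofAdd.injective (congrArg Prod.fst h)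
    have h3 := congrFun h2 none
    rw [Pi.single_eq_same] at h3
    exact one_ne_zero h3
  · apply Prod.ext
    · change Multiplicative.ofAdd _ * Multiplicative.ofAdd _ = 1
      rw [← ofAdd_add, ← Pi.single_add]
      have : (1 : ZMod 2) + 1 = 0 := by decide
      rw [this, Pi.single_zero]; rfl
    · simp [s]
  · intro i j k l h
    have h2 := congrArg (fun g : Gp I K => (Multiplicative.toAdd g.1) none) h
    simp [b, s] at h2

/-- **Main theorem.** For every infinite cardinal `α` there are an abelian group and a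
non-abelian group, each containing a subset `A` with `|G:A|⁻ = 2` and `|G:A|⁺ = α`. -/
theorem result : ∀ α : Cardinal.{u}, ℵ₀ ≤ α →
    (∃ (G : Type u) (_ : CommGroup G) (A : Set G),
      lowerSubindex A = 2 ∧ upperSubindex A = α) ∧
    (∃ (G : Type u) (_ : Group G) (A : Set G),
      (∃ x y : G, x * y ≠ y * x) ∧ lowerSubindex A = 2 ∧ upperSubindex A = α) := by
  intro α hα
  have hI : #(Quotient.out α) = α := Cardinal.mk_out α
  constructor
  · obtain ⟨A, h1, h2⟩ := concrete (Quotient.out α) (by rw [hI]; exact hα)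
      (Multiplicative (ZMod 2))
    exact ⟨Gp (Quotient.out α) (Multiplicative (ZMod 2)), inferInstance, A, h1, h2.trans hI⟩
  · obtain ⟨A, h1, h2⟩ := concrete (Quotient.out α) (by rw [hI]; exact hα)
      (Equiv.Perm (Fin 3))
    refine ⟨Gp (Quotient.out α) (Equiv.Perm (Fin 3)), inferInstance, A, ?_, h1, h2.trans hI⟩
    refine ⟨(1, Equiv.swap 0 1), (1, Equiv.swap 1 2), ?_⟩
    intro h
    have h3 : (Equiv.swap 0 1 : Equiv.Perm (Fin 3)) * Equiv.swap 1 2 =
        Equiv.swap 1 2 * Equiv.swap 0 1 := congrArg Prod.snd h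
    revert h3
    decide

end Pool.Agent.Results.MP_453038_al.LowerTwoUpperAny
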